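import Pool.Agent.H59.MO.Stmt

open scoped ENNReal

namespace Pool.Agent.Results.MP_e36817_an.AmenabilityEquivalence

open Pool.Agent.H58.Lit Pool.Agent.H59.MO

universe u

/-- Question Q1 has a positive answer if and only if every group of Littlewood exponent at most two
is amenable. More precisely, every nonamenable group `Γ` has a countable subgroup `Γ₀` and a split
extension `G` of `Γ₀` by a group of exponent two such that `G` is not unitarisable and
`Lit(G) ≤ max(1, Lit(Γ))`. A positive answer to Q1 implies that every unitarisable group is amenable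
and that no group has Littlewood exponent in `(1, 2]`. -/
theorem result :
    (Q1.{u} ↔ ∀ (G : Type u) [Group G], Lit G ≤ 2 → Amenable G) ∧
    (∀ (Γ : Type u) [Group Γ], ¬ Amenable Γ →
      ∃ (Γ₀ : Subgroup Γ) (G : Type u) (_ : Group G), Countable Γ₀ ∧ SplitExpTwo G Γ₀ ∧
        ¬ IsUnitarisable G ∧ Lit G ≤ max 1 (Lit Γ)) ∧
    (Q1.{u} → ∀ (G : Type u) [Group G],
      (IsUnitarisable G → Amenable G) ∧ ¬ (1 < Lit G ∧ Lit G ≤ 2)) := by
  refine ⟨equivalence, ?_, fun hQ G _ => ⟨dixmier_of_q1 hQ G, no_lit_between hQ G⟩⟩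
  intro Γ _ hΓ
  obtain ⟨Γ₀, hc, hnu, hlit⟩ := exists_nonunitarisable hΓ
  exact ⟨Γ₀, Ext Γ₀, inferInstance, hc, splitExpTwo_ext Γ₀, hnu, hlit⟩

end Pool.Agent.Results.MP_e36817_an.AmenabilityEquivalence
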