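import Pool.Agent.H58.Lit.Extension

open scoped ENNReal

namespace Pool.Agent.Results.MP_e36817_an.AmenableKernel

open Pool.Agent.H58.Lit

universe u

/-- For an infinite group `G` and a normal subgroup `N` which is amenable,
`Lit(G) = max (1, Lit(G/N))`; if `G/N` is infinite then `Lit(G) = Lit(G/N)`. -/
theorem result {G : Type u} [Group G] [Infinite G] (N : Subgroup G) [N.Normal]
    (hN : Amenable N) :
    Lit G = max 1 (Lit (G ⧸ N)) ∧ (Infinite (G ⧸ N) → Lit G = Lit (G ⧸ N)) := by
  have h : Lit G = max 1 (Lit (G ⧸ N)) := by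
    apply le_antisymm
    · exact lit_le_of_extension N (QuotientGroup.mk' N) (QuotientGroup.mk'_surjective N)
        (fun g => by simp) hN
    · exact max_le (one_le_lit G)
        (lit_le_of_surjective (QuotientGroup.mk' N) (QuotientGroup.mk'_surjective N))
  refine ⟨h, fun hinf => ?_⟩
  rw [h, max_eq_right (one_le_lit _)]

end Pool.Agent.Results.MP_e36817_an.AmenableKernel
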