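import Pool.Agent.H59.Thin.Pat

open scoped ENNReal

namespace Pool.Agent.Results.MP_e36817_an.AvoidingRelations

open Pool.Agent.H58.Lit Pool.Agent.H59.Thin

universe u

/-- If `T₁(Γ) ⊆ ℓᵖ(Γ)` with `p ≥ 1`, then there is `C` such that for `n ≥ C Lᵖ` any `n` elements of
`Γ` satisfy a nonempty reduced relation `w` which has no factor in a given `L`-thin family of words
and no factor `u v u` or `u v u⁻¹` with `u` nonempty and `|u v| ≤ L |u|`. -/
theorem result {Γ : Type u} [Group Γ] {p : ℝ} (hp : 1 ≤ p)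
    (h : ∀ f : Γ → ℂ, IsLittlewood f → Memℓp f (ENNReal.ofReal p)) :
    ∃ C : ℝ, ∀ n L : ℕ, 1 ≤ L → C * (L : ℝ) ^ p ≤ n → ∀ (s : Fin n → Γ)
      (F : Set (List (Fin n × Bool) × List (Fin n × Bool))), Thin L F →
      ∃ w : List (Fin n × Bool), w ≠ [] ∧ FreeGroup.IsReduced w ∧
        FreeGroup.lift s (FreeGroup.mk w) = 1 ∧
        (∀ x ∈ F, ¬ (x.1 ++ x.2) <:+: w) ∧
        ∀ u v : List (Fin n × Bool), u ≠ [] →
          (u ++ v ++ u <:+: w ∨ u ++ v ++ FreeGroup.invRev u <:+: w) →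
          L * u.length < (u ++ v).length :=
  main hp h

end Pool.Agent.Results.MP_e36817_an.AvoidingRelations
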