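import Pool.Agent.H79.CG.Main

/-!
# Groups with nonzero first `ℓ²`-Betti number have infinite Littlewood exponent

If some cocycle `b : G → ℓ²(G)` is not a pointwise limit of inner cocycles (for countable `G`: the first `ℓ²`-Betti number of
`G` is not zero), then every group `Γ` with subquotient `G` has `Lit Γ = ∞`; so no such `Γ` is unitarisable. There is no
assumption of residual finiteness.

Proof: one can assume that `G` is finitely generated by `S`. Let `beta S` be its first `ℓ²`-Betti number, and let
`beta F < beta S` for a generating set `F` of a subgroup `H`. Give the edges of `H` the weight `W → ∞`. The total dimension of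
the space of the gradients of finite energy does not change, the edges of `H` carry at most the invariant of `H`, and the
potentials become constant on the cosets of `H`. So all finite sets `A` meet at least `c #A` cosets of `H` or of `s H s⁻¹`, for
some `s ∈ S` (`CG.count`). By the marriage theorem every point can choose one of its two cosets, such that every coset is
chosen at most `C` times; this gives Littlewood functions, large if `H` is infinite or of unbounded finite order
(`CG.sparseSets_of_subgroups`). If there is no such `H`, then `G` is a torsion group with bounded finite subgroups, and one can
assume that the centralizers of all noncentral elements are bounded. For most pairs `p`, `q` of elements of a ball, chosen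
such that `u p` is large and `u q⁻¹` is small, for a harmonic function `u` of finite energy, `u` is nearly constant on the
powers of `p q`, which come back to `(p q)⁻¹`: a contradiction (`CG.no_tors`).
-/

set_option autoImplicit false

open Pool.Agent.H58.Lit Pool.Agent.H79.CG

namespace Pool.Agent.Results.MP_e36817_an.CosetGraphs

universe u

theorem result (Γ : Type u) [Group Γ] (P : Subgroup Γ) (G : Type u) [Group G] (φ : P →* G)
    (hφ : Function.Surjective φ) :
    (∀ b : G → G → ℝ, IsCocycle b → ¬ IsLimInner b → Lit Γ = ⊤) ∧
    ∀ S : Finset G, Subgroup.closure (S : Set G) = ⊤ →
      ∀ u : G → ℝ, IsHD S u → (∃ x y, u x ≠ u y) → Lit Γ = ⊤ := by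
  refine ⟨fun b hb h => ?_, fun S hS u hu ⟨x, y, hxy⟩ => ?_⟩
  · exact (((sparse_of_cocycle hb h).lift φ hφ).over P).lit
  · exact (((sparse_of_beta_pos S hS (beta_pos S hS u hu x y hxy)).lift φ hφ).over P).lit

end Pool.Agent.Results.MP_e36817_an.CosetGraphs
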